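import Pool.Agent.H7.ME.Stmts

set_option autoImplicit false

open Finset

namespace Pool.ME7

open Pool.Agent.H23.KT Pool.Agent.H46.KW Pool.KQ Pool.GT7 Pool.GU7 Pool.HZ7 Pool.IA7

private lemma pwt_a (r k m : ℕ) :
    (r + m).choose (k + 1) ≤ r.choose (k + 1) + m * (r + m).choose k := by
  induction m with
  | zero => simp
  | succ m ih =>
    have h1 : (r + (m + 1)).choose (k + 1) = (r + m).choose k + (r + m).choose (k + 1) := by
      rw [show r + (m + 1) = (r + m) + 1 from rfl, Nat.choose_succ_succ']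
    have h2 : (r + m).choose k ≤ (r + (m + 1)).choose k := Nat.choose_le_choose k (by omega)
    have h3 : m * (r + m).choose k ≤ m * (r + (m + 1)).choose k := Nat.mul_le_mul_left m h2
    have h4 : (m + 1) * (r + (m + 1)).choose k =
      m * (r + (m + 1)).choose k + (r + (m + 1)).choose k := by ring
    omega

private lemma pwt_b (q k m : ℕ) :
    q.choose (k + 1) + m * q.choose k ≤ (q + m).choose (k + 1) := by
  induction m with
  | zero => simp
  | succ m ih =>
    have h1 : (q + (m + 1)).choose (k + 1) = (q + m).choose k + (q + m).choose (k + 1) := by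
      rw [show q + (m + 1) = (q + m) + 1 from rfl, Nat.choose_succ_succ']
    have h2 : q.choose k ≤ (q + m).choose k := Nat.choose_le_choose k (by omega)
    have h4 : (m + 1) * q.choose k = m * q.choose k + q.choose k := by ring
    omega

private lemma pwt_conv (r k m n : ℕ) :
    (m + n) * (r + m).choose (k + 1) ≤
      n * r.choose (k + 1) + m * (r + m + n).choose (k + 1) := by
  have h1 := Nat.mul_le_mul_left n (pwt_a r k m)
  have h2 := Nat.mul_le_mul_left m (pwt_b (r + m) k n)
  have h3 : (m + n) * (r + m).choose (k + 1) =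
    n * (r + m).choose (k + 1) + m * (r + m).choose (k + 1) := by ring
  have h4 : n * (r.choose (k + 1) + m * (r + m).choose k) =
    n * r.choose (k + 1) + m * n * (r + m).choose k := by ring
  have h5 : m * ((r + m).choose (k + 1) + n * (r + m).choose k) =
    m * (r + m).choose (k + 1) + m * n * (r + m).choose k := by ring
  omega

theorem pwt_thm : PWTStmt := by
  intro p w r h
  obtain ⟨w1, wp, rp, p3, rs⟩ := h
  have hc : 0 < (p + 2).choose (w + 1) := Nat.choose_pos (by omega)
  have h1 : (w + 1) * (p + 3 - r) < 2 * r := by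
    have : (p + 2).choose (w + 1) * ((w + 1) * (p + 3 - r)) < (p + 2).choose (w + 1) * (2 * r) :=
      lt_of_le_of_lt (Nat.le_add_left _ _) rs
    exact Nat.lt_of_mul_lt_mul_left this
  obtain ⟨k, hk⟩ : ∃ k, p + 3 = r + k := ⟨p + 3 - r, by omega⟩
  have hk' : p + 3 - r = k := by omega
  have hk3 : 2 ≤ k := by omega
  rw [hk'] at h1 rs
  have h2 : 2 * k ≤ (w + 1) * k := Nat.mul_le_mul_right k (by omega)
  have hr : 0 < r := by omega
  have hrR : (0 : ℝ) < r := by exact_mod_cast hr
  have hkR : (0 : ℝ) < k := by exact_mod_cast (show 0 < k by omega)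
  have hkr : (p : ℝ) + 3 = r + k := by exact_mod_cast hk
  have hcR : 0 < c1 p w := by
    unfold c1
    exact_mod_cast hc
  have hpt : pt p w r = ((w : ℝ) + 1) * k / (2 * r) := by
    unfold pt
    rw [hkr, add_sub_cancel_left]
  have h1R : ((w : ℝ) + 1) * k < 2 * r := by exact_mod_cast h1
  have hp0 : 0 < pt p w r := by
    rw [hpt]
    positivity
  have hp1 : pt p w r < 1 := by
    rw [hpt, div_lt_one (by positivity)]
    exact h1R
  -- the slack at `r`
  have hs : (((r - 1).choose (w + 1) : ℕ) : ℝ) + 1 / (2 * r) ≤ c1 p w * (1 - pt p w r) := by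
    have h3 : 2 * r * (r - 1).choose (w + 1) + (p + 2).choose (w + 1) * ((w + 1) * k) + 1 ≤
        (p + 2).choose (w + 1) * (2 * r) := rs
    have h4 : 2 * (r : ℝ) * ((r - 1).choose (w + 1) : ℕ) +
        ((p + 2).choose (w + 1) : ℕ) * (((w : ℝ) + 1) * k) + 1 ≤
        ((p + 2).choose (w + 1) : ℕ) * (2 * (r : ℝ)) := by exact_mod_cast h3
    have h5 : c1 p w * (1 - pt p w r) =
        (((p + 2).choose (w + 1) : ℕ) * (2 * (r : ℝ)) -
          ((p + 2).choose (w + 1) : ℕ) * (((w : ℝ) + 1) * k)) / (2 * r) := by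
      rw [hpt]
      unfold c1
      field_simp
    rw [h5, le_div_iff₀ (by positivity)]
    have h6 : ((((r - 1).choose (w + 1) : ℕ) : ℝ) + 1 / (2 * r)) * (2 * r) =
        2 * (r : ℝ) * ((r - 1).choose (w + 1) : ℕ) + 1 := by
      field_simp
    rw [h6]
    linarith
  have hbR : (1 : ℝ) ≤ (p : ℝ) + 3 := by
    have : (0 : ℝ) ≤ p := Nat.cast_nonneg p
    linarith
  -- the inequality for small `B`
  have small : ∀ B : ℕ, B + 1 ≤ r → (B.choose (w + 1) : ℝ) + 1 / (2 * r) ≤
      c1 p w * (1 - pt p w r) + pt p w r * c1 p w * ww p r B := by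
    intro B hB
    have hw : ww p r B = 0 := by
      unfold ww gg
      rw [if_pos hB]
      ring
    rw [hw, mul_zero, add_zero]
    have : (B.choose (w + 1) : ℝ) ≤ (((r - 1).choose (w + 1) : ℕ) : ℝ) := by
      exact_mod_cast Nat.choose_le_choose (w + 1) (show B ≤ r - 1 by omega)
    linarith
  -- the inequality for large `B`
  have large : ∀ m n : ℕ, m + n = k → 0 < m → ∀ B : ℕ, B + 1 = r + m →
      (B.choose (w + 1) : ℝ) + n / (2 * k * (r + m)) ≤
      c1 p w * (1 - pt p w r) + pt p w r * c1 p w * ww p r B := by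
    intro m n hmn hm B hB
    have hmR : (0 : ℝ) < m := by exact_mod_cast hm
    have hmnR : (m : ℝ) + n = k := by exact_mod_cast hmn
    have hqR : ((B + 1 : ℕ) : ℝ) = r + m := by exact_mod_cast hB
    have hw : ww p r B = ((r : ℝ) + k) * m / (k * (r + m)) := by
      unfold ww gg
      rw [if_neg (by omega), hqR, hkr]
      have e1 : (r : ℝ) + k - (r + m) = n := by linarith
      have e2 : (r : ℝ) + k - r = k := by ring
      rw [e1, e2]
      have : (r : ℝ) + m ≠ 0 := by positivity
      field_simp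
      rw [← hmnR]
      ring
    -- convexity
    have cv := pwt_conv r (w + 1) m n
    have i1 : (r + m) * B.choose (w + 1) = (r + m).choose (w + 1 + 1) * (w + 1 + 1) := by
      rw [← hB]
      exact Nat.add_one_mul_choose_eq B (w + 1)
    have i2 : r * (r - 1).choose (w + 1) = r.choose (w + 1 + 1) * (w + 1 + 1) := by
      obtain ⟨r', rfl⟩ : ∃ r', r = r' + 1 := ⟨r - 1, by omega⟩
      exact Nat.add_one_mul_choose_eq r' (w + 1)
    have hb3 : r + m + n = (p + 2) + 1 := by omega
    have i3 : (p + 3) * (p + 2).choose (w + 1) = (r + m + n).choose (w + 1 + 1) * (w + 1 + 1) := by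
      rw [hb3]
      exact Nat.add_one_mul_choose_eq (p + 2) (w + 1)
    have cv2 : k * ((r + m) * B.choose (w + 1)) ≤
        n * (r * (r - 1).choose (w + 1)) + m * ((p + 3) * (p + 2).choose (w + 1)) := by
      rw [i1, i2, i3, ← hmn]
      calc (m + n) * ((r + m).choose (w + 1 + 1) * (w + 1 + 1))
          = ((m + n) * (r + m).choose (w + 1 + 1)) * (w + 1 + 1) := by ring
        _ ≤ (n * r.choose (w + 1 + 1) + m * (r + m + n).choose (w + 1 + 1)) * (w + 1 + 1) :=
          Nat.mul_le_mul_right _ cv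
        _ = _ := by ring
    have cv3 : (k : ℝ) * (((r : ℝ) + m) * (B.choose (w + 1) : ℝ)) ≤
        n * (r * (((r - 1).choose (w + 1) : ℕ) : ℝ)) + m * (((r : ℝ) + k) * c1 p w) := by
      have := (Nat.cast_le (α := ℝ)).2 cv2
      push_cast at this
      rw [hkr] at this
      unfold c1
      exact this
    have hs2 : (r : ℝ) * (((r - 1).choose (w + 1) : ℕ) : ℝ) + 1 / 2 ≤
        r * (c1 p w * (1 - pt p w r)) := by
      have := mul_le_mul_of_nonneg_left hs hrR.le
      have e : (r : ℝ) * ((((r - 1).choose (w + 1) : ℕ) : ℝ) + 1 / (2 * r)) =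
        (r : ℝ) * (((r - 1).choose (w + 1) : ℕ) : ℝ) + 1 / 2 := by
        field_simp
      rw [e] at this
      exact this
    have hnR : (0 : ℝ) ≤ n := Nat.cast_nonneg n
    have hs3 := mul_le_mul_of_nonneg_left hs2 hnR
    rw [hw]
    have hK : (0 : ℝ) < k * (r + m) := by positivity
    rw [← mul_le_mul_iff_right₀ hK]
    have e3 : (k : ℝ) * (r + m) * ((B.choose (w + 1) : ℝ) + n / (2 * k * (r + m))) =
        k * ((r + m) * (B.choose (w + 1) : ℝ)) + n / 2 := by
      field_simp
    have e4 : (k : ℝ) * (r + m) * (c1 p w * (1 - pt p w r) +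
        pt p w r * c1 p w * (((r : ℝ) + k) * m / (k * (r + m)))) =
        k * (r + m) * (c1 p w * (1 - pt p w r)) + pt p w r * c1 p w * (((r : ℝ) + k) * m) := by
      field_simp
    rw [e3, e4]
    have e5 : (k : ℝ) * (r + m) = n * r + m * (r + k) := by
      rw [← hmnR]
      ring
    rw [e5]
    nlinarith [cv3, hs3]
  refine ⟨⟨by omega, rp⟩, hp0, hp1, ?_, ?_⟩
  · intro B hB
    by_cases hBr : B + 1 ≤ r
    · have := small B hBr
      have h0 : (0 : ℝ) ≤ 1 / (2 * r) := by positivity
      linarith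
    · have := large (B + 1 - r) (p + 3 - (B + 1)) (by omega) (by omega) B (by omega)
      have h0 : (0 : ℝ) ≤ ((p + 3 - (B + 1) : ℕ) : ℝ) / (2 * k * (r + ((B + 1 - r : ℕ) : ℝ))) := by
        positivity
      linarith
  · intro B hB
    by_cases hBr : B + 1 ≤ r
    · have := small B hBr
      have h0 : 1 / (2 * ((p : ℝ) + 3) ^ 2) ≤ 1 / (2 * r) := by
        apply one_div_le_one_div_of_le (by positivity)
        have : (r : ℝ) ≤ (p : ℝ) + 3 := by linarith
        nlinarith
      linarith
    · have := large (B + 1 - r) (p + 3 - (B + 1)) (by omega) (by omega) B (by omega)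
      have e1 : (r : ℝ) + ((B + 1 - r : ℕ) : ℝ) = B + 1 := by
        exact_mod_cast (show r + (B + 1 - r) = B + 1 by omega)
      rw [e1] at this
      have h0 : 1 / (2 * ((p : ℝ) + 3) ^ 2) ≤
          ((p + 3 - (B + 1) : ℕ) : ℝ) / (2 * k * ((B : ℝ) + 1)) := by
        have hn1 : (1 : ℝ) ≤ ((p + 3 - (B + 1) : ℕ) : ℝ) := by
          exact_mod_cast (show 1 ≤ p + 3 - (B + 1) by omega)
        have hB1 : (B : ℝ) + 1 ≤ (p : ℝ) + 3 := by
          exact_mod_cast (show B + 1 ≤ p + 3 by omega)
        have hk1 : (k : ℝ) ≤ (p : ℝ) + 3 := by linarith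
        have hB0 : (0 : ℝ) ≤ B := Nat.cast_nonneg B
        apply div_le_div₀ (by positivity) hn1 (by positivity)
        have := mul_le_mul hk1 hB1 (by positivity) (by positivity)
        nlinarith
      linarith

end Pool.ME7
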